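import Pool.Agent.Lib.MP_3240be_co.H51.Defs

/-!
# Row TI (board TREES, MP_3240be_co): tree facts of Case I
-/

set_option autoImplicit false

namespace MP3240T

open Finset

/-- The side of `x` in `T - s`: the vertices reached from `x` without `s`. -/
noncomputable def tiK {n : ℕ} (T : SimpleGraph (Fin n)) (s x : Fin n) : Finset (Fin n) := by
  classical exact univ.filter (fun v => ∃ p : T.Walk x v, s ∉ p.support)

theorem mem_tiK {n : ℕ} {T : SimpleGraph (Fin n)} {s x v : Fin n} :
    v ∈ tiK T s x ↔ ∃ p : T.Walk x v, s ∉ p.support := by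
  classical
  simp [tiK]

theorem tiK_self {n : ℕ} {T : SimpleGraph (Fin n)} {s x : Fin n} (h : s ≠ x) :
    x ∈ tiK T s x := mem_tiK.2 ⟨.nil, by simpa using h⟩

theorem tiK_s {n : ℕ} {T : SimpleGraph (Fin n)} {s x : Fin n} : s ∉ tiK T s x := by
  rw [mem_tiK]
  rintro ⟨p, hp⟩
  exact hp p.end_mem_support

theorem tiK_step {n : ℕ} {T : SimpleGraph (Fin n)} {s x v w : Fin n} (hv : v ∈ tiK T s x)
    (h : T.Adj v w) (hw : w ≠ s) : w ∈ tiK T s x := by
  obtain ⟨p, hp⟩ := mem_tiK.1 hv
  refine mem_tiK.2 ⟨p.concat h, ?_⟩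
  rw [SimpleGraph.Walk.support_concat]
  simp only [List.mem_append, List.mem_singleton, not_or]
  exact ⟨hp, fun h' => hw h'.symm⟩

theorem tiK_trans {n : ℕ} {T : SimpleGraph (Fin n)} {s x y v : Fin n} (hx : v ∈ tiK T s x)
    (hy : v ∈ tiK T s y) : y ∈ tiK T s x := by
  obtain ⟨p, hp⟩ := mem_tiK.1 hx
  obtain ⟨q, hq⟩ := mem_tiK.1 hy
  refine mem_tiK.2 ⟨p.append q.reverse, ?_⟩
  rw [SimpleGraph.Walk.mem_support_append_iff, SimpleGraph.Walk.support_reverse, List.mem_reverse]
  exact fun h => h.elim hp hq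

theorem tiK_only {n : ℕ} {T : SimpleGraph (Fin n)} (hT : T.IsAcyclic) {s x z : Fin n}
    (hsx : T.Adj s x) (hz : z ∈ tiK T s x) (hsz : T.Adj s z) : z = x := by
  classical
  obtain ⟨p, hp⟩ := mem_tiK.1 hz
  have h1 : s ∉ (p.toPath : T.Walk x z).support := fun h => hp (p.support_toPath_subset_support h)
  have h2 : (SimpleGraph.Walk.cons hsx (p.toPath : T.Walk x z)).IsPath :=
    p.toPath.2.cons h1
  have := hT.eq_snd_of_adj_start h2 hsz (SimpleGraph.Walk.end_mem_support _)
  simpa using this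

theorem tiK_tree {n : ℕ} {T : SimpleGraph (Fin n)} (hT : T.IsAcyclic) {s x : Fin n}
    (hsx : s ≠ x) : (T.induce (tiK T s x : Set (Fin n))).IsTree := by
  classical
  refine ⟨?_, hT.induce _⟩
  have hx : x ∈ (tiK T s x : Set (Fin n)) := tiK_self hsx
  have key : ∀ v : (tiK T s x : Set (Fin n)),
      (T.induce (tiK T s x : Set (Fin n))).Reachable ⟨x, hx⟩ v := by
    rintro ⟨v, hv⟩
    obtain ⟨p, hp⟩ := mem_tiK.1 (Finset.mem_coe.1 hv)
    refine ⟨p.induce _ ?_⟩
    intro w hw
    refine Finset.mem_coe.2 (mem_tiK.2 ⟨p.takeUntil w hw, ?_⟩)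
    exact fun h => hp (p.support_takeUntil_subset_support hw h)
  have : Nonempty (tiK T s x : Set (Fin n)) := ⟨⟨x, hx⟩⟩
  exact ⟨fun u v => (key u).symm.trans (key v)⟩

/-- The parent of a vertex is unique. -/
theorem ti_parent {n : ℕ} {T : SimpleGraph (Fin n)} (hT : T.IsTree) {s v u w : Fin n}
    (hu : T.Adj v u) (hw : T.Adj v w) (du : T.dist s v = T.dist s u + 1)
    (dw : T.dist s v = T.dist s w + 1) : u = w := by
  have key : ∀ u, T.Adj v u → T.dist s v = T.dist s u + 1 →
      ∃ q : T.Walk s v, q.IsPath ∧ q.penultimate = u := by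
    intro u hu du
    obtain ⟨q, hq, hql⟩ := (hT.connected s u).exists_path_of_dist
    have hv : v ∉ q.support := by
      intro hv
      have h1 : (q.takeUntil v hv).length ≤ q.length := q.length_takeUntil_le_length hv
      have h2 := SimpleGraph.dist_le (q.takeUntil v hv)
      omega
    exact ⟨q.concat hu.symm, hq.concat hv hu.symm, by simp⟩
  obtain ⟨q1, h1, e1⟩ := key u hu du
  obtain ⟨q2, h2, e2⟩ := key w hw dw
  have := (hT.existsUnique_path s v).unique h1 h2
  rw [← e1, ← e2, this]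

/-- The deepest `A`-vertex of a side. -/
theorem ti_deep {n : ℕ} {T : SimpleGraph (Fin n)} (hT : T.IsTree) {κ : Fin n → Bool}
    (hp : ∀ i j, T.Adj i j → κ i ≠ κ j) {s y y' : Fin n} (hs : κ s = true) (hsy : T.Adj s y)
    (hy : T.Adj y y') (hys : y' ≠ s) :
    ∃ a0 b0, κ a0 = true ∧ a0 ∈ tiK T s y ∧ T.Adj a0 b0 ∧
      (∀ x, T.Adj a0 x → x ≠ b0 → ∀ z, T.Adj x z → z = a0) ∧
      (nb T a0).card + 1 ≤ (tiK T s y).card := by
  classical
  have kne : ∀ {i j}, T.Adj i j → κ i = true → κ j = false := by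
    intro i j hij hi
    have := hp i j hij
    rw [hi] at this
    cases hj : κ j
    · rfl
    · exact absurd hj.symm this
  have kne' : ∀ {i j}, T.Adj i j → κ i = false → κ j = true := by
    intro i j hij hi
    have := hp i j hij
    rw [hi] at this
    cases hj : κ j
    · exact absurd hj.symm this
    · rfl
  have hyK : y ∈ tiK T s y := tiK_self hsy.ne
  have hy'K : y' ∈ tiK T s y := tiK_step hyK hy hys
  have hne : ((tiK T s y).filter (fun v => κ v = true)).Nonempty :=
    ⟨y', mem_filter.2 ⟨hy'K, kne' hy (kne hsy hs)⟩⟩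
  obtain ⟨a0, ha0, hmax⟩ := exists_max_image _ (fun v => T.dist s v) hne
  rw [mem_filter] at ha0
  obtain ⟨haK, haκ⟩ := ha0
  have has : a0 ≠ s := fun h => tiK_s (h ▸ haK)
  -- the parent
  obtain ⟨b0, hab, hdb⟩ : ∃ b0, T.Adj a0 b0 ∧ T.dist s a0 = T.dist s b0 + 1 := by
    obtain ⟨p, hp⟩ := (hT.connected a0 s).exists_walk_length_eq_dist
    cases p with
    | nil => exact absurd rfl has
    | cons h q =>
      rename_i b
      refine ⟨b, h, ?_⟩
      have h1 := SimpleGraph.dist_le q
      rw [SimpleGraph.Walk.length_cons] at hp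
      rcases hT.dist_eq_dist_add_one_of_adj s h with h2 | h2
      · exact h2
      · rw [SimpleGraph.dist_comm] at hp
        rw [SimpleGraph.dist_comm] at h1
        omega
  refine ⟨a0, b0, haκ, haK, hab, ?_, ?_⟩
  · intro x hax hxb z hxz
    by_contra hza
    have hx1 : T.dist s x = T.dist s a0 + 1 := by
      rcases hT.dist_eq_dist_add_one_of_adj s hax with h | h
      · exact absurd (ti_parent hT hax hab h hdb) hxb
      · exact h
    have hz1 : T.dist s z = T.dist s x + 1 := by
      rcases hT.dist_eq_dist_add_one_of_adj s hxz with h | h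
      · exact absurd (ti_parent hT hxz hax.symm h hx1) hza
      · exact h
    have hxs : x ≠ s := by
      intro h
      rw [h, SimpleGraph.dist_self] at hx1
      omega
    have hzs : z ≠ s := by
      intro h
      rw [h, SimpleGraph.dist_self] at hz1
      omega
    have hzK := tiK_step (tiK_step haK hax hxs) hxz hzs
    have := hmax z (mem_filter.2 ⟨hzK, kne' hxz (kne hax haκ)⟩)
    omega
  · have hsub : nb T a0 ⊆ (tiK T s y).erase a0 := by
      intro x hx
      rw [nb, mem_filter] at hx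
      have hx := hx.2
      refine mem_erase.2 ⟨hx.ne', tiK_step haK hx ?_⟩
      intro h
      rw [h] at hx
      exact hp _ _ hx (haκ.trans hs.symm)
    have h1 := card_le_card hsub
    rw [card_erase_of_mem haK] at h1
    have h2 : 0 < (tiK T s y).card := card_pos.2 ⟨a0, haK⟩
    omega

theorem ti_build {n : ℕ} {T : SimpleGraph (Fin n)} (hT : T.IsTree) {κ : Fin n → Bool}
    (hp : ∀ i j, T.Adj i j → κ i ≠ κ j) {s x y x' a0 b0 a1 : Fin n} (hs : κ s = true)
    (hsx : T.Adj s x) (hsy : T.Adj s y) (hxy : x ≠ y) (hx : T.Adj x x') (hxs : x' ≠ s)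
    (ha : κ a0 = true) (haK : a0 ∈ tiK T s y) (hab : T.Adj a0 b0)
    (hleaf : ∀ x, T.Adj a0 x → x ≠ b0 → ∀ z, T.Adj x z → z = a0)
    (h0 : (nb T a0).card + 1 ≤ (tiK T s y).card) (h1 : (nb T a1).card + 1 ≤ (tiK T s x).card)
    (h01 : (nb T a0).card ≤ (nb T a1).card) : Nonempty (DatI T κ (clA κ).card) := by
  classical
  have kne : ∀ {i j}, T.Adj i j → κ i = true → κ j = false := by
    intro i j hij hi
    have := hp i j hij
    rw [hi] at this
    cases hj : κ j
    · rfl
    · exact absurd hj.symm this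
  have kne' : ∀ {i j}, T.Adj i j → κ i = false → κ j = true := by
    intro i j hij hi
    have := hp i j hij
    rw [hi] at this
    cases hj : κ j
    · exact absurd hj.symm this
    · rfl
  have hdis : Disjoint (tiK T s x) (tiK T s y) := by
    rw [Finset.disjoint_left]
    intro v hv hv'
    exact hxy (tiK_only hT.isAcyclic hsx (tiK_trans hv hv') hsy).symm
  have hcard : (tiK T s x).card + (tiK T s y).card + 1 ≤ n := by
    have h2 : s ∉ tiK T s x ∪ tiK T s y := by
      rw [mem_union]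
      exact fun h => h.elim tiK_s tiK_s
    have h3 := card_le_univ (insert s (tiK T s x ∪ tiK T s y))
    rw [card_insert_of_notMem h2, card_union_of_disjoint hdis, Fintype.card_fin] at h3
    exact h3
  have has : a0 ≠ s := fun h => tiK_s (h ▸ haK)
  have haK' : a0 ∉ tiK T s x := fun h => Finset.disjoint_left.1 hdis h haK
  exact ⟨{
    prop := hp
    cardA := rfl
    s := s
    hs := hs
    K := tiK T s x
    sK := tiK_s
    closed := fun v hv w hw hvw => by
      by_contra h
      exact hw (tiK_step hv hvw h)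
    KA := ⟨x', tiK_step (tiK_self hsx.ne) hx hxs, kne' hx (kne hsx hs)⟩
    KA' := ⟨a0, haK', has, ha⟩
    a0 := a0
    b0 := b0
    ha0 := ha
    a0K := haK'
    a0s := has
    adj0 := hab
    leaf := hleaf
    b1 := x
    b1K := tiK_self hsx.ne
    only := fun z hz hsz => tiK_only hT.isAcyclic hsx hz hsz
    tree := tiK_tree hT.isAcyclic hsx.ne
    d0 := by omega
    d0K := by omega }⟩

/-- Row TI. -/
theorem ti_proof : TIStatement := by
  intro n T κ s x y x' y' hT hp hs hsx hsy hxy hx hxs hy hys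
  obtain ⟨a0, b0, h1, h2, h3, h4, h5⟩ := ti_deep hT hp hs hsy hy hys
  obtain ⟨a1, b1, g1, g2, g3, g4, g5⟩ := ti_deep hT hp hs hsx hx hxs
  rcases le_total (nb T a0).card (nb T a1).card with h | h
  · exact ti_build hT hp hs hsx hsy hxy hx hxs h1 h2 h3 h4 h5 g5 h
  · exact ti_build hT hp hs hsy hsx hxy.symm hy hys g1 g2 g3 g4 g5 h5 h

end MP3240T
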